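import Pool.Agent.Helper55.HM.Sp
import Pool.Agent.Helper24.HK.Cfg
import Pool.Agent.Helper94.HK.Nat

/-!
The directions at points near a configuration are a basis (project HK, MP_9410e4).
-/

set_option autoImplicit false

namespace Pool.Agent.Helper55.HK

open Pool.Agent.Helper64.HK Pool.Agent.Helper24.HK Pool.Agent.Helper24.HN
open Pool.Agent.Helper28.HN (I aff)

section residue

variable {p : ℕ} [Fact p.Prime]

/-- A matrix which is congruent to an invertible matrix is invertible. -/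
theorem det_unit_of_res {ι : Type*} [Fintype ι] [DecidableEq ι] {A B : Matrix ι ι ℤ_[p]}
    (hB : IsUnit B.det)
    (h : ∀ i j, IsLocalRing.residue ℤ_[p] (A i j) = IsLocalRing.residue ℤ_[p] (B i j)) :
    IsUnit A.det := by
  have e : A.map (IsLocalRing.residue ℤ_[p]) = B.map (IsLocalRing.residue ℤ_[p]) := by
    ext i j
    exact h i j
  have e2 : IsLocalRing.residue ℤ_[p] A.det = IsLocalRing.residue ℤ_[p] B.det := by
    rw [RingHom.map_det, RingHom.map_det]
    exact congrArg Matrix.det e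
  have h3 : IsUnit (IsLocalRing.residue ℤ_[p] A.det) := by
    rw [e2]
    exact hB.map _
  exact isUnit_of_map_unit _ _ h3

end residue

section un

variable {p : ℕ} [Fact p.Prime] {k m : ℕ} {a : Fin (k + 1) → Fin (m + 1)} (c : Ix a → ℤ_[p])
  (s : Sel k m) (x : Un k m → ℤ_[p]) (h : Cfg c s x)

/-- The point and its reduction. -/
theorem res_ct (v : Fin k × Fin (m + 1) → ℤ_[p])
    (hv : ∀ q, ‖v q - x (.inl q)‖ ≤ (p : ℝ) ^ (-2 : ℤ)) :
    (fun j l => IsLocalRing.residue ℤ_[p] (ct v j l)) =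
      fun j l => IsLocalRing.residue ℤ_[p] (pt x j l) := by
  rw [pt, Pool.Agent.Helper94.HK.map_ct, Pool.Agent.Helper94.HK.map_ct]
  congr 1
  funext q
  exact Pool.Agent.Helper55.HM.residue_eq (hv q)

/-- The point over `t` and its reduction. -/
theorem res_Xz (v : Fin k × Fin (m + 1) → ℤ_[p])
    (hv : ∀ q, ‖v q - x (.inl q)‖ ≤ (p : ℝ) ^ (-2 : ℤ)) (b : Lt k m) (z : ℤ_[p])
    (hz : ‖z - x (.inr b)‖ ≤ (p : ℝ) ^ (-2 : ℤ)) :
    (fun j l => IsLocalRing.residue ℤ_[p] (Xz c (ct v) z j l)) =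
      fun j l => IsLocalRing.residue ℤ_[p] (Xz c (pt x) (x (.inr b)) j l) := by
  rw [Pool.Agent.Helper94.HK.map_Xz, Pool.Agent.Helper94.HK.map_Xz, res_ct x v hv,
    Pool.Agent.Helper55.HM.residue_eq hz]

include h

theorem detM_unit (v : Fin k × Fin (m + 1) → ℤ_[p])
    (hv : ∀ q, ‖v q - x (.inl q)‖ ≤ (p : ℝ) ^ (-2 : ℤ)) : IsUnit (Mx c (ct v)).det := by
  have h1 : IsUnit (Mx c (pt x)).det := by
    have h2 := h.hP
    rw [Pp] at h2
    exact isUnit_of_mul_isUnit_left (isUnit_of_mul_isUnit_left (isUnit_of_mul_isUnit_left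
      (isUnit_of_mul_isUnit_left (isUnit_of_mul_isUnit_left (isUnit_of_mul_isUnit_left
        (isUnit_of_mul_isUnit_left h2))))))
  have e1 := Pool.Agent.Helper94.HK.map_detM (IsLocalRing.residue ℤ_[p]) c (ct v)
  have e2 := Pool.Agent.Helper94.HK.map_detM (IsLocalRing.residue ℤ_[p]) c (pt x)
  rw [res_ct x v hv, ← e2] at e1
  have h3 : IsUnit (IsLocalRing.residue ℤ_[p] (Mx c (ct v)).det) := by
    rw [e1]
    exact h1.map _
  exact isUnit_of_map_unit _ _ h3

theorem detN_unit (v : Fin k × Fin (m + 1) → ℤ_[p])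
    (hv : ∀ q, ‖v q - x (.inl q)‖ ≤ (p : ℝ) ^ (-2 : ℤ)) (b : Lt k m) (z : ℤ_[p])
    (hz : ‖z - x (.inr b)‖ ≤ (p : ℝ) ^ (-2 : ℤ)) :
    IsUnit (Nx c (s.ty b).succ (Xz c (ct v) z)).det := by
  have h1 : IsUnit (∏ b : Lt k m, (Nx c (s.ty b).succ (Xz c (pt x) (x (.inr b)))).det) := by
    have h2 := h.hP
    rw [Pp] at h2
    exact isUnit_of_mul_isUnit_right (isUnit_of_mul_isUnit_left (isUnit_of_mul_isUnit_left
      (isUnit_of_mul_isUnit_left (isUnit_of_mul_isUnit_left (isUnit_of_mul_isUnit_left h2)))))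
  have h2 : IsUnit (Nx c (s.ty b).succ (Xz c (pt x) (x (.inr b)))).det :=
    isUnit_of_dvd_unit (Finset.dvd_prod_of_mem
      (fun b : Lt k m => (Nx c (s.ty b).succ (Xz c (pt x) (x (.inr b)))).det)
      (Finset.mem_univ b)) h1
  refine det_unit_of_res h2 fun i j => ?_
  have e1 := congrFun (congrFun (Pool.Agent.Helper94.HK.map_Nx (IsLocalRing.residue ℤ_[p]) c
    (s.ty b).succ (Xz c (ct v) z)) i) j
  have e2 := congrFun (congrFun (Pool.Agent.Helper94.HK.map_Nx (IsLocalRing.residue ℤ_[p]) c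
    (s.ty b).succ (Xz c (pt x) (x (.inr b)))) i) j
  rw [res_Xz c x v hv b z hz] at e1
  exact e1.trans e2.symm

theorem vm_unit (l : Fin k) : IsUnit (Vm c x l).det := by
  have h1 : IsUnit (∏ l : Fin k, (Vm c x l).det) := by
    have := h.hP
    rw [Pp] at this
    exact isUnit_of_mul_isUnit_right this
  exact isUnit_of_dvd_unit (Finset.dvd_prod_of_mem (fun l => (Vm c x l).det) (Finset.mem_univ l)) h1

/-- The matrix of the directions at points in the ball. -/
theorem dir_unit (v : Fin k × Fin (m + 1) → ℤ_[p])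
    (hv : ∀ q, ‖v q - x (.inl q)‖ ≤ (p : ℝ) ^ (-2 : ℤ)) (ζ : Fin k × Fin (m + 1) → ℤ_[p])
    (hζ : ∀ q, ‖ζ q - x (.inr (some q))‖ ≤ (p : ℝ) ^ (-2 : ℤ)) (l : Fin k) :
    IsUnit (Matrix.of fun b i : Fin (m + 1) =>
      vh c l.succ (Xz c (ct v) (ζ (l, b))) i).det := by
  refine det_unit_of_res (vm_unit c s x h l) fun b i => ?_
  have e1 := congrFun (Pool.Agent.Helper94.HK.map_vh (IsLocalRing.residue ℤ_[p]) c l.succ
    (Xz c (ct v) (ζ (l, b)))) i
  have e2 := congrFun (Pool.Agent.Helper94.HK.map_vh (IsLocalRing.residue ℤ_[p]) c l.succ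
    (Xz c (pt x) (x (.inr (some (l, b)))))) i
  rw [res_Xz c x v hv (some (l, b)) (ζ (l, b)) (hζ (l, b))] at e1
  exact e1.trans e2.symm

omit h in
/-- `em` as a linear map. -/
noncomputable def emL (l : Fin k) : (Fin (m + 1) → ℚ_[p]) →ₗ[ℚ_[p]] (Fin (k * (m + 1)) → ℚ_[p]) where
  toFun w := Pool.Agent.Helper24.HK.em l w
  map_add' w w' := by
    funext i
    simp only [Pool.Agent.Helper24.HK.em, Pi.add_apply]
    split_ifs
    · rfl
    · rw [add_zero]
  map_smul' t w := by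
    funext i
    simp only [Pool.Agent.Helper24.HK.em, Pi.smul_apply, smul_eq_mul, RingHom.id_apply]
    split_ifs
    · rfl
    · rw [mul_zero]

omit h in
theorem emL_cst (l : Fin k) (w : Fin (m + 1) → ℤ_[p]) : emL l (cst w) = cst (Pool.Agent.Helper24.HK.em l w) := by
  funext i
  simp only [emL, LinearMap.coe_mk, AddHom.coe_mk, Pool.Agent.Helper24.HK.em, cst]
  split_ifs
  · rfl
  · rw [PadicInt.coe_zero]

omit h in
theorem sum_emL (X : Fin (k * (m + 1)) → ℚ_[p]) :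
    X = ∑ l : Fin k, emL l (fun i => X (finProdFinEquiv (l, i))) := by
  funext i
  rw [Finset.sum_apply, Finset.sum_eq_single (finProdFinEquiv.symm i).1]
  · simp only [emL, LinearMap.coe_mk, AddHom.coe_mk, Pool.Agent.Helper24.HK.em, if_true]
    rw [Prod.mk.eta, Equiv.apply_symm_apply]
  · intro l _ hl
    simp only [emL, LinearMap.coe_mk, AddHom.coe_mk, Pool.Agent.Helper24.HK.em]
    rw [if_neg hl.symm]
  · intro h0
    exact absurd (Finset.mem_univ _) h0

/-- The directions at points in the ball are a basis. -/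
theorem span_dir (v : Fin k × Fin (m + 1) → ℤ_[p])
    (hv : ∀ q, ‖v q - x (.inl q)‖ ≤ (p : ℝ) ^ (-2 : ℤ)) (ζ : Fin k × Fin (m + 1) → ℤ_[p])
    (hζ : ∀ q, ‖ζ q - x (.inr (some q))‖ ≤ (p : ℝ) ^ (-2 : ℤ)) :
    Submodule.span ℚ_[p] (Set.range fun q : Fin k × Fin (m + 1) =>
      (Pool.Agent.Helper24.HN.cst (em q.1 (vh c q.1.succ (Xz c (ct v) (ζ q)))) :
        Fin (k * (m + 1)) → ℚ_[p])) = ⊤ := by
  rw [eq_top_iff]
  intro X _
  rw [sum_emL X]
  refine Submodule.sum_mem _ fun l _ => ?_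
  have h1 := Pool.Agent.Helper55.HM.span_rows (dir_unit c s x h v hv ζ hζ l)
  have h2 : (fun i => X (finProdFinEquiv (l, i))) ∈ Submodule.span ℚ_[p]
      (Set.range fun b : Fin (m + 1) =>
        cst ((Matrix.of fun b i : Fin (m + 1) => vh c l.succ (Xz c (ct v) (ζ (l, b))) i) b)) := by
    rw [h1]
    exact Submodule.mem_top
  have h3 := Submodule.mem_map_of_mem (f := emL (p := p) (k := k) l) h2
  rw [Submodule.map_span] at h3
  refine Submodule.span_mono ?_ h3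
  rintro _ ⟨_, ⟨b, rfl⟩, rfl⟩
  refine ⟨(l, b), ?_⟩
  exact (emL_cst l _).symm

/-- The span hypothesis of the dynamics. -/
theorem hsp {L : Pool.Agent.Helper24.HM.LocM p (k * (m + 1)) (Fin k)} (hL : IsLoc c L)
    {R : Pool.Agent.Helper24.HM.RefM L (Lt k m)} (hR : IsRef s x R)
    (x1 : V p (k * (m + 1))) (z : Lt k m → ℤ_[p])
    (hx1 : ‖x1 - R.u0‖ ≤ (p : ℝ) ^ (-2 : ℤ))
    (hz : ∀ a, a ≠ R.y → ‖z a - R.z a‖ ≤ (p : ℝ) ^ (-2 : ℤ)) :
    ⊤ ≤ Submodule.span ℚ_[p]
      ((Pool.Agent.Helper24.HM.lin L R.ty x1 z).v '' {a | a ≠ R.y}) := by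
  have hv : ∀ q, ‖tr x1 q - x (.inl q)‖ ≤ (p : ℝ) ^ (-2 : ℤ) := fun q => by
    have h1 := (norm_le_pi_norm (x1 - R.u0) (finProdFinEquiv q)).trans hx1
    rw [Pi.sub_apply, hR.u0] at h1
    simpa only [tr, tr', Equiv.symm_apply_apply] using h1
  have hζ : ∀ q : Fin k × Fin (m + 1), ‖z (some q) - x (.inr (some q))‖ ≤ (p : ℝ) ^ (-2 : ℤ) :=
    fun q => by
      have h1 := hz (some q) (by rw [hR.y]; exact Option.some_ne_none q)
      rw [hR.z] at h1
      exact h1
  rw [← span_dir c s x h (tr x1) hv (fun q => z (some q)) hζ]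
  refine Submodule.span_mono ?_
  rintro _ ⟨q, rfl⟩
  refine ⟨some q, by rw [hR.y]; exact Option.some_ne_none q, ?_⟩
  have e1 : (Pool.Agent.Helper24.HM.lin L R.ty x1 z).v (some q) =
      cst (L.xi (R.ty (some q)) x1 (z (some q))) := rfl
  rw [e1, hL.hxi, hR.ty]
  rfl

end un

end Pool.Agent.Helper55.HK
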